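import Pool.Agent.helper20.Sz.Sys
import Pool.Agent.helper20.Sz.B1
import Pool.Agent.helper91.Sz.B2

/-!
# SZ-C3: chain map, first block
-/

set_option autoImplicit false

open scoped symmDiff

namespace Pool.Agent.helper20.Sz

namespace C3
variable {X E : Type} [DecidableEq X] [Fintype E] [DecidableEq E] {K : Cube X E}

open Classical in
theorem firstBlock (hK : K.IsCore) (s0 : Bool) (P : E) (v u : Finset X) (s : E → Bool)
    (hs : ∀ x y, K.same v x y → s x = s y) (hP : s P = false) (𝒟 : Finset (Finset E))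
    (hv : K.Valid u 𝒟) (hn : Nrm P 𝒟) :
    (∑ w ∈ u.powerset, if (∀ c ∈ u \ w, K.Nsep 𝒟 c ∧ s (K.tail c) = false) ∧
        K.AC s0 u (u \ w) ∧ K.Xi0 P v s w 𝒟 then (1 : ZMod 2) else 0) =
    ∑ w ∈ u.powerset, if v ⊆ w ∧ K.AC s0 w (w \ v) ∧
        (∀ c ∈ w \ v, s (K.tail c) = false ∧ s (K.head c) = false) ∧
        K.Xi0 P w s u 𝒟 then (1 : ZMod 2) else 0 := by
  by_cases hvu : v ⊆ u
  swap
  · rw [Finset.sum_eq_zero, Finset.sum_eq_zero]
    · intro w hw
      rw [if_neg]
      rintro ⟨h1, _⟩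
      exact hvu (h1.trans (Finset.mem_powerset.mp hw))
    · intro w hw
      rw [if_neg]
      rintro ⟨_, _, h1⟩
      exact hvu (h1.sub.trans (Finset.mem_powerset.mp hw))
  set F : Finset X := (u \ v).filter fun c => s (K.tail c) = true with hF
  set G : Finset X := (u \ v).filter fun c => s (K.tail c) = false with hG
  have hFm : ∀ c, c ∈ F ↔ (c ∈ u ∧ c ∉ v) ∧ s (K.tail c) = true := by
    intro c; simp [hF]
  have hGm : ∀ c, c ∈ G ↔ (c ∈ u ∧ c ∉ v) ∧ s (K.tail c) = false := by
    intro c; simp [hG]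
  have hFG : ∀ c, c ∈ u ↔ c ∈ v ∨ c ∈ F ∨ c ∈ G := by
    intro c
    rw [hFm, hGm]
    constructor
    · intro h
      by_cases h1 : c ∈ v
      · exact Or.inl h1
      · rcases Bool.eq_false_or_eq_true (s (K.tail c)) with h2 | h2
        · exact Or.inr (Or.inl ⟨⟨h, h1⟩, h2⟩)
        · exact Or.inr (Or.inr ⟨⟨h, h1⟩, h2⟩)
    · rintro (h | h | h)
      · exact hvu h
      · exact h.1.1
      · exact h.1.1
  have hdis : ∀ c, c ∈ F → c ∉ G := by
    intro c h1 h2
    rw [hFm] at h1
    rw [hGm] at h2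
    rw [h1.2] at h2
    exact absurd h2.2 (by simp)
  have hFv : ∀ c, c ∈ F → c ∉ v := fun c h => ((hFm c).mp h).1.2
  have hGv : ∀ c, c ∈ G → c ∉ v := fun c h => ((hGm c).mp h).1.2
  -- the states
  have e1 : v ∆ F = v ∪ F := by
    ext c
    simp only [Finset.mem_symmDiff, Finset.mem_union]
    have := hFv c
    tauto
  have e2 : v ∆ G = v ∪ G := by
    ext c
    simp only [Finset.mem_symmDiff, Finset.mem_union]
    have := hGv c
    tauto
  have e3 : (v ∆ F) ∆ G = u := by
    rw [e1]
    ext c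
    simp only [Finset.mem_symmDiff, Finset.mem_union]
    have h1 := hdis c
    have h2 := hGv c
    have h3 := hFG c
    tauto
  have e4 : (v ∆ G) ∆ F = u := by
    rw [symmDiff_right_comm, e3]
  have e5 : u ∆ G = v ∆ F := by
    rw [← e3, symmDiff_symmDiff_cancel_right]
  have e6 : u \ (v ∆ F) = G := by
    rw [e1]
    ext c
    simp only [Finset.mem_sdiff, Finset.mem_union]
    have h1 := hdis c
    have h2 := hGv c
    have h3 := hFG c
    tauto
  have e7 : (v ∆ F) \ v = F := by
    rw [e1]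
    ext c
    simp only [Finset.mem_sdiff, Finset.mem_union]
    have h2 := hFv c
    tauto
  have e8 : u \ (v ∆ G) = F := by
    rw [e2]
    ext c
    simp only [Finset.mem_sdiff, Finset.mem_union]
    have h1 := hdis c
    have h2 := hFv c
    have h3 := hFG c
    tauto
  have e9 : (v ∆ G) \ v = G := by
    rw [e2]
    ext c
    simp only [Finset.mem_sdiff, Finset.mem_union]
    have h2 := hGv c
    tauto
  have e10 : v ⊆ v ∆ G := by rw [e2]; exact Finset.subset_union_left
  have e11 : v ⊆ v ∆ F := by rw [e1]; exact Finset.subset_union_left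
  have e12 : v ∆ F ⊆ u := by
    intro c hc
    rw [e1, Finset.mem_union] at hc
    rw [hFG]
    tauto
  have e13 : v ∆ G ⊆ u := by
    intro c hc
    rw [e2, Finset.mem_union] at hc
    rw [hFG]
    tauto
  rw [Finset.sum_eq_single_of_mem (v ∆ F) (Finset.mem_powerset.mpr e12),
    Finset.sum_eq_single_of_mem (v ∆ G) (Finset.mem_powerset.mpr e13)]
  rotate_left
  · -- uniqueness on the right
    intro w hw hne
    rw [if_neg]
    rintro ⟨h1, -, h2, h3⟩
    apply hne
    rw [Finset.mem_powerset] at hw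
    rw [e2]
    ext c
    rw [Finset.mem_union, hGm]
    constructor
    · intro hc
      by_cases h4 : c ∈ v
      · exact Or.inl h4
      · exact Or.inr ⟨⟨hw hc, h4⟩, (h2 c (Finset.mem_sdiff.mpr ⟨hc, h4⟩)).1⟩
    · rintro (h4 | h4)
      · exact h1 h4
      · by_contra hc
        have h5 := (h3.lab c (Finset.mem_sdiff.mpr ⟨h4.1.1, hc⟩)).1
        rw [h4.2] at h5
        exact absurd h5 (by simp)
  · -- uniqueness on the left
    intro w hw hne
    rw [if_neg]
    rintro ⟨h1, -, h3⟩
    apply hne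
    rw [Finset.mem_powerset] at hw
    rw [e1]
    ext c
    rw [Finset.mem_union, hFm]
    constructor
    · intro hc
      by_cases h4 : c ∈ v
      · exact Or.inl h4
      · exact Or.inr ⟨⟨hw hc, h4⟩, (h3.lab c (Finset.mem_sdiff.mpr ⟨hc, h4⟩)).1⟩
    · rintro (h4 | h4)
      · exact h3.sub h4
      · by_contra hc
        have h5 := (h1 c (Finset.mem_sdiff.mpr ⟨h4.1.1, hc⟩)).2
        rw [h4.2] at h5
        exact absurd h5 (by simp)
  -- the equivalence
  rw [e6, e9]
  refine if_congr ?_ rfl rfl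
  -- common consequences
  have key : (∀ c ∈ F, s (K.tail c) = true ∧ s (K.head c) = true) →
      (∀ c ∈ G, s (K.tail c) = false ∧ s (K.head c) = false) → (∀ c ∈ G, K.Nsep 𝒟 c) →
      ((K.AC s0 u G ↔ K.AC s0 (v ∆ G) G) ∧ K.Valid (v ∆ F) 𝒟 ∧
        (∀ x y, s x = true → (K.same u x y ↔ K.same (v ∆ F) x y)) ∧
        (K.Spl v F ↔ K.Spl (v ∆ G) F)) := by
    intro hF' hG' hN
    have s1 : ∀ x y, K.same (v ∆ G) x y → s x = s y :=
      B1.inv_flip hK s v G hs fun c hc => by rw [(hG' c hc).1, (hG' c hc).2]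
    have s2 : ∀ x y, K.same (v ∆ F) x y → s x = s y :=
      B1.inv_flip hK s v F hs fun c hc => by rw [(hF' c hc).1, (hF' c hc).2]
    refine ⟨?_, ?_, ?_, ?_⟩
    · have := B2.local_AC hK s0 (v := v ∆ G) (F := F) (G := G) (s := s) true s1 hF' hG'
      rw [e4] at this
      exact this
    · refine ⟨hv.ne, hv.top, ?_, hv.chain⟩
      intro D hD
      have h1 := B1.inv_flip hK (fun x => (x ∈ D : Prop)) u G
        (fun x y hxy => propext (hv.sat D hD x y hxy)) (fun c hc => propext (hN c hc D hD))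
      rw [e5] at h1
      intro x y hxy
      exact iff_of_eq (h1 x y hxy)
    · intro x y hx
      have := B2.local_same hK (v := v ∆ F) (F := G) (s := s) false s2 hG' x y (by simpa using hx)
      rw [e3] at this
      exact this
    · have := B2.local_num hK (v := v) (F := G) (G := F) (s := s) false hs hG'
        (by simpa using hF')
      rw [Cube.Spl, Cube.Spl]
      omega
  constructor
  · rintro ⟨h1, h2, h3⟩
    have hF' : ∀ c ∈ F, s (K.tail c) = true ∧ s (K.head c) = true := by
      intro c hc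
      exact h3.lab c (by rw [e7]; exact hc)
    have hN : ∀ c ∈ G, K.Nsep 𝒟 c := fun c hc => (h1 c hc).1
    have hG' : ∀ c ∈ G, s (K.tail c) = false ∧ s (K.head c) = false := by
      intro c hc
      refine ⟨(h1 c hc).2, ?_⟩
      rw [h3.first]
      intro D hD
      exact ((h1 c hc).1 D hD).mp ((h3.first _).mp (h1 c hc).2 D hD)
    obtain ⟨k1, k2, k3, k4⟩ := key hF' hG' hN
    refine ⟨e10, k1.mp h2, hG', ⟨e13, hv, hn, h3.first, ?_, ?_, ?_, ?_⟩⟩
    · intro x y hx hxy
      exact (k3 x y hx).mpr (h3.single x y hx hxy)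
    · rw [e8]
      have := h3.spl
      rw [e7] at this
      exact k4.mp this
    · rw [e8]; exact hF'
    · rw [e8]
      have := h3.ord
      rw [e7] at this
      exact this
  · rintro ⟨-, h2, hG', h3⟩
    have hF' : ∀ c ∈ F, s (K.tail c) = true ∧ s (K.head c) = true := by
      intro c hc
      exact h3.lab c (by rw [e8]; exact hc)
    have hN : ∀ c ∈ G, K.Nsep 𝒟 c := by
      intro c hc D hD
      exact ⟨fun _ => (h3.first _).mp (hG' c hc).2 D hD,
        fun _ => (h3.first _).mp (hG' c hc).1 D hD⟩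
    obtain ⟨k1, k2, k3, k4⟩ := key hF' hG' hN
    refine ⟨fun c hc => ⟨hN c hc, (hG' c hc).1⟩, k1.mpr h2,
      ⟨e11, k2, hn, h3.first, ?_, ?_, ?_, ?_⟩⟩
    · intro x y hx hxy
      exact (k3 x y hx).mp (h3.single x y hx hxy)
    · rw [e7]
      have := h3.spl
      rw [e8] at this
      exact k4.mpr this
    · rw [e7]; exact hF'
    · rw [e7]
      have := h3.ord
      rw [e8] at this
      exact this

end C3

end Pool.Agent.helper20.Sz
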